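import Pool.Agent.V7H79.AC.Main

/-!
# Automatic colourings have polynomial Ramsey numbers

A finite automaton reads the base-`k` digits of two vertices `x`, `y` in parallel and colours the
pair by its final state. For every number `m` of states and every base `k` there is an exponent `D`
such that every such colouring of the complete graph on `n` vertices has a homogeneous set with at
least `n ^ (1 / D)` vertices. So a colouring of this kind without a monochromatic complete graph on
`t` vertices has fewer than `t ^ D` vertices.
-/

set_option autoImplicit false

namespace Pool.Agent.Results.MP_28724c_co.AutomaticColouringsH79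

open Pool.Agent.V7H79.AC

theorem result (k m : ℕ) [NeZero k] (hk : 2 ≤ k) :
    ∃ D : ℕ, ∀ (step : Fin m → Fin k → Fin k → Fin m) (q₀ : Fin m) (C : Type) (out : Fin m → C)
      (n L : ℕ), n ≤ k ^ L →
      (∀ x y : Fin n, x ≠ y → out (run step (digits k L x) (digits k L y) q₀) =
        out (run step (digits k L y) (digits k L x) q₀)) →
      ∃ (H : Finset (Fin n)) (c : C), n ≤ H.card ^ D ∧
        ∀ x ∈ H, ∀ y ∈ H, x ≠ y → out (run step (digits k L x) (digits k L y) q₀) = c :=
  uniform k m hk

end Pool.Agent.Results.MP_28724c_co.AutomaticColouringsH79
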