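import Pool.Agent.V7H5.LD.Lim

set_option autoImplicit false

/-!
# Diagonal Ramsey numbers of colourings of given Littlestone dimension

A two-colouring of the edges of the complete graph on `Fin n` is a graph `G` (red) with its complement
(blue). `Tree G d W` says that there is a complete mistake tree of depth `d` for the neighbourhoods of
the vertices of `W`: a complete binary tree whose inner nodes are labelled with vertices `x` such that
for every branch some vertex `w` of `W` is adjacent exactly to those `x` on the branch at which the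
branch turns to the right. `LdimLE G d`: the Littlestone dimension of the neighbourhoods of all
vertices is at most `d` (there is no tree of depth `d + 1`). This is the optimal mistake bound for
learning a vertex from its adjacencies online, and it is bounded exactly for the stable families of
colourings. `order k d` is the largest number of vertices of a colouring of Littlestone dimension at
most `d` without monochromatic `K_k`; `ramsey k = R(k,k)`.

The upper bound is an analogue of the lemma of Sauer and Shelah: the bound `∑_j C(a + b - 2, j)` of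
Erdős and Szekeres for `R(a,b)` (all `j`) is reduced to `j ≤ d + 1`. The lower bound comes from random
graphs of edge density about `d / k`. Together they give the growth of `order k d` up to a factor
`1 + o(1)` in the exponent, for all `d → ∞` with `d = o(k)`.
-/

namespace Pool.Agent.Results.MP_28724c_co.LittlestoneGrowthH5

open Filter Topology

/-- there is a complete mistake tree of depth `d` for the neighbourhoods of the vertices of `W` -/
def Tree {V : Type*} (G : SimpleGraph V) : ℕ → Set V → Prop
  | 0, W => W.Nonempty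
  | d + 1, W => ∃ x, Tree G d {w | w ∈ W ∧ G.Adj x w} ∧ Tree G d {w | w ∈ W ∧ ¬ G.Adj x w}

/-- the Littlestone dimension of the family of the neighbourhoods of the vertices is at most `d` -/
def LdimLE {V : Type*} (G : SimpleGraph V) (d : ℕ) : Prop := ¬ Tree G (d + 1) Set.univ

/-- the colouring with the colour classes `G` and `Gᶜ` has no monochromatic `K_k` -/
def NoMono {V : Type*} (G : SimpleGraph V) (k : ℕ) : Prop := G.CliqueFree k ∧ Gᶜ.CliqueFree k

/-- the largest number of vertices of a colouring of Littlestone dimension at most `d` without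
monochromatic `K_k` -/
noncomputable def order (k d : ℕ) : ℕ := sSup {n | ∃ G : SimpleGraph (Fin n), NoMono G k ∧ LdimLE G d}

/-- the diagonal Ramsey number `R(k,k)` -/
noncomputable def ramsey (k : ℕ) : ℕ := sInf {n | ∀ G : SimpleGraph (Fin n), ¬ NoMono G k}

theorem tree_eq {V : Type*} (G : SimpleGraph V) : ∀ (d : ℕ) (W : Set V),
    Tree G d W ↔ Pool.Agent.V7H5.LD.MT G d W
  | 0, _ => Iff.rfl
  | d + 1, W => by
    unfold Tree Pool.Agent.V7H5.LD.MT
    exact exists_congr fun x => and_congr (tree_eq G d _) (tree_eq G d _)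

theorem ldim_eq {V : Type*} (G : SimpleGraph V) (d : ℕ) :
    LdimLE G d ↔ ¬ Pool.Agent.V7H5.LD.MT G (d + 1) Set.univ := not_congr (tree_eq G _ _)

theorem order_eq (k d : ℕ) : order k d = Pool.Agent.V7H5.LD.ord k d := by
  unfold order Pool.Agent.V7H5.LD.ord Pool.Agent.V7H5.LD.ords NoMono
  simp only [ldim_eq]

/-- **Main result.** -/
theorem result :
    -- (1) Littlestone dimension at most `d`, no red `K_a`, no blue `K_b`:
    -- less than `∑_{j ≤ d + 1} C(a + b - 2, j)` vertices
    (∀ (n a b d : ℕ) (G : SimpleGraph (Fin n)), 1 ≤ a → 1 ≤ b → G.CliqueFree a → Gᶜ.CliqueFree b →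
      LdimLE G d → n < ∑ j ∈ Finset.range (d + 2), (a + b - 2).choose j) ∧
    -- (2) for `d ≥ 2 k - 3` there is no restriction: `order k d = R(k,k) - 1`
    (∀ k d : ℕ, 1 ≤ k → 2 * k ≤ d + 3 → order k d + 1 = ramsey k) ∧
    -- (3) `log (order k d) = (1 + o(1)) d log (k / d)` if `d → ∞` and `k / d → ∞`
    (∀ η : ℝ, 0 < η → ∃ R : ℕ, ∀ d k : ℕ, R ≤ d → R * d ≤ k →
      (1 - η) * (d * Real.log ((k : ℝ) / d)) ≤ Real.log (order k d) ∧
        Real.log (order k d) ≤ (1 + η) * (d * Real.log ((k : ℝ) / d))) ∧
    (∀ d : ℕ → ℕ, Tendsto d atTop atTop → Tendsto (fun k : ℕ => (k : ℝ) / d k) atTop atTop →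
      Tendsto (fun k : ℕ => Real.log (order k (d k)) / (d k * Real.log ((k : ℝ) / d k))) atTop
        (𝓝 1)) ∧
    -- (4) the growth rate for Littlestone dimension at most `ε k` is `(1 + o(1)) ε log (1 / ε)`
    -- as `ε → 0`
    (∀ η : ℝ, 0 < η → ∃ ε₀ : ℝ, 0 < ε₀ ∧ ∀ ε : ℝ, 0 < ε → ε ≤ ε₀ → ∀ᶠ k : ℕ in atTop,
      (1 - η) * (ε * Real.log (1 / ε)) ≤ Real.log (order k ⌊ε * k⌋₊) / k ∧
        Real.log (order k ⌊ε * k⌋₊) / k ≤ (1 + η) * (ε * Real.log (1 / ε))) ∧
    -- (5) a colouring without monochromatic `K_k` on at least `2 ^ (k / 2)` vertices, in particular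
    -- an extremal one, has Littlestone dimension greater than `⌊k / 13⌋` (`k` large)
    (∃ K : ℕ, ∀ k : ℕ, K ≤ k → ∀ (n : ℕ) (G : SimpleGraph (Fin n)), NoMono G k →
      (2 : ℝ) ^ ((k : ℝ) / 2) ≤ n → ¬ LdimLE G ⌊(k : ℝ) / 13⌋₊) := by
  refine ⟨?_, ?_, ?_, ?_, ?_, ?_⟩
  · intro n a b d G ha hb h1 h2 h3
    rw [ldim_eq] at h3
    have := Pool.Agent.V7H5.LD.upper G (a + b - 2) (d + 1) a b ha hb (by omega) Finset.univ
      (by simpa using h3) (fun s _ => h1 s) (fun s _ => h2 s)
    rw [Finset.card_univ, Fintype.card_fin] at this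
    exact this
  · intro k d hk hd
    rw [order_eq]
    exact Pool.Agent.V7H5.LD.ord_eq_ramsey hk hd
  · intro η hη
    obtain ⟨R, _, H⟩ := Pool.Agent.V7H5.LD.ord_sharp hη
    refine ⟨R, fun d k hd hk => ?_⟩
    rw [order_eq]
    exact H d k hd hk
  · intro d h1 h2
    simp_rw [order_eq]
    exact Pool.Agent.V7H5.LD.growth d h1 h2
  · intro η hη
    simp_rw [order_eq]
    exact Pool.Agent.V7H5.LD.rate hη
  · obtain ⟨K, H⟩ := Pool.Agent.V7H5.LD.large
    refine ⟨K, fun k hk n G h1 h2 h3 => ?_⟩
    rw [ldim_eq] at h3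
    exact h3 (H k hk n G h1.1 h1.2 h2)

end Pool.Agent.Results.MP_28724c_co.LittlestoneGrowthH5
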