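import Pool.Agent.V7H28.RM.TableB
import Pool.Agent.V7H28.RM.Paley

/-!
MP_28724c_co, pseudorandom colourings and Paley graphs: a two-colouring in which both colours are
pseudorandom above the scale `n ^ (1 / 2)` has a monochromatic `K_k` as soon as `n ≥ 2.748 ^ k`; the
Paley graph on `q` vertices has a clique of at least `0.989 log q` vertices.
-/

namespace Pool.Agent.Results.MP_28724c_co.PseudorandomAndPaleyH28

open Pool.Agent.W87.Restr Pool.Agent.V7H28.RM

lemma log_upper : Real.log (2.748 : ℝ) ≤ 1.0109 := by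
  have h : (((2748 : ℕ) : ℝ) / ((1000 : ℕ) : ℝ)) ≤ Real.exp (((1010900000 : ℕ) : ℝ) / (1000000000 : ℕ)) :=
    H110R2.expL_sound (by norm_num) (by norm_num) (by decide +kernel)
  have e1 : (((2748 : ℕ) : ℝ) / ((1000 : ℕ) : ℝ)) = 2.748 := by norm_num
  have e2 : ((1010900000 : ℕ) : ℝ) / (1000000000 : ℕ) = 1.0109 := by norm_num
  rw [e1, e2] at h
  calc Real.log (2.748 : ℝ) ≤ Real.log (Real.exp 1.0109) := Real.log_le_log (by norm_num) h
    _ = 1.0109 := Real.log_exp _

/-- the clique number of Paley graphs -/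
lemma paley_clique : ∃ q0 : ℕ, ∀ (F : Type) [Field F] [Fintype F], q0 ≤ Fintype.card F →
    Fintype.card F % 4 = 1 →
    ∃ (k : ℕ) (s : Finset F), (paley F).IsNClique k s ∧
      0.989 * Real.log (Fintype.card F) ≤ (k : ℝ) := by
  obtain ⟨K, hK⟩ := p5 1
  obtain ⟨q0, hq0⟩ := exists_nat_ge (Real.exp (max 10000 (2 * ((K : ℝ) + 1))))
  refine ⟨q0, ?_⟩
  intro F _ _ hq h4
  classical
  set q : ℝ := (Fintype.card F : ℝ) with hqdef
  have hq1 : Real.exp (max 10000 (2 * ((K : ℝ) + 1))) ≤ q :=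
    hq0.trans (by rw [hqdef]; exact_mod_cast hq)
  have hqpos : 0 < q := (Real.exp_pos _).trans_le hq1
  have hlog : max 10000 (2 * ((K : ℝ) + 1)) ≤ Real.log q := by
    rw [Real.le_log_iff_exp_le hqpos]
    exact hq1
  have hl1 : (10000 : ℝ) ≤ Real.log q := (le_max_left _ _).trans hlog
  have hl2 : 2 * ((K : ℝ) + 1) ≤ Real.log q := (le_max_right _ _).trans hlog
  have hc0 : 0 < Real.log (2.748 : ℝ) := Real.log_pos (by norm_num)
  have hc1 := log_upper
  set k : ℕ := ⌊Real.log q / Real.log 2.748⌋₊ with hk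
  have hx0 : 0 ≤ Real.log q / Real.log 2.748 := div_nonneg (by linarith) hc0.le
  have hk1 : (k : ℝ) ≤ Real.log q / Real.log 2.748 := Nat.floor_le hx0
  have hk2 : Real.log q / Real.log 2.748 < k + 1 := Nat.lt_floor_add_one _
  have hk3 : Real.log q / 1.0109 ≤ Real.log q / Real.log 2.748 :=
    div_le_div_of_nonneg_left (by linarith) hc0 hc1
  have hk4 : Real.log q / 1.0109 = Real.log q * (1 / 1.0109) := by ring
  have hk5 : Real.log q * 0.9892 ≤ Real.log q * (1 / 1.0109) :=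
    mul_le_mul_of_nonneg_left (by norm_num) (by linarith)
  have hKk : K ≤ k := by
    have : (K : ℝ) < k + 1 := by linarith
    have h2 : K < k + 1 := by exact_mod_cast this
    omega
  have hpow : (2.748 : ℝ) ^ k ≤ q := by
    rw [← Real.log_le_log_iff (by positivity) hqpos, Real.log_pow]
    rw [le_div_iff₀ hc0] at hk1
    exact hk1
  have hbij : Bijumbled (paley F) (1 / 2) (1 * q ^ (0.5 : ℝ)) := by
    have h := paley_bij (F := F) h4
    have e : Real.sqrt (Fintype.card F) = 1 * q ^ (0.5 : ℝ) := by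
      rw [one_mul, Real.sqrt_eq_rpow, hqdef]
      norm_num
    rw [← e]
    exact h
  have hmono := hK k hKk (V := F) (paley F) hpow hbij
  have hfin : ∃ s : Finset F, (paley F).IsNClique k s := by
    rcases hmono with h | ⟨s, hs⟩
    · exact h
    · exact paley_self h4 hs
  obtain ⟨s, hs⟩ := hfin
  refine ⟨k, s, hs, ?_⟩
  linarith

/-- **Ramsey bounds for pseudorandom colourings, and cliques of Paley graphs.** For the pairs
`(θ, c) = (0.5, 2.748), (0.6, 2.887), (0.7, 2.99), (0.8, 3.051), (0.9, 3.095)` and every `B`, if `k` is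
large, `n ≥ c ^ k` and `G` is a graph on `n` vertices with
`|e(X, Y) - |X||Y|/2| ≤ B n ^ θ √(|X||Y|)` for all vertex sets `X, Y`, then `G` has a clique or an
independent set of size `k`. For all large finite fields with `q = 1` modulo `4` elements the Paley
graph has a clique with at least `0.989 log q` vertices. -/
theorem result :
    (∀ θ c : ℝ, (θ, c) ∈ ([(0.5, 2.748), (0.6, 2.887), (0.7, 2.99), (0.8, 3.051),
        (0.9, 3.095)] : List (ℝ × ℝ)) →
      ∀ B : ℝ, ∃ K : ℕ, ∀ k : ℕ, K ≤ k → ∀ (V : Type) [Fintype V] (G : SimpleGraph V),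
        c ^ k ≤ (Fintype.card V : ℝ) → Bijumbled G (1 / 2) (B * (Fintype.card V : ℝ) ^ θ) →
        (∃ s : Finset V, G.IsNClique k s) ∨ (∃ s : Finset V, Gᶜ.IsNClique k s)) ∧
    (∃ q0 : ℕ, ∀ (F : Type) [Field F] [Fintype F], q0 ≤ Fintype.card F →
      Fintype.card F % 4 = 1 →
      ∃ (k : ℕ) (s : Finset F), (paley F).IsNClique k s ∧
        0.989 * Real.log (Fintype.card F) ≤ (k : ℝ)) := by
  refine ⟨?_, paley_clique⟩
  intro θ c hmem B
  simp only [List.mem_cons, Prod.mk.injEq, List.not_mem_nil, or_false] at hmem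
  rcases hmem with ⟨rfl, rfl⟩ | ⟨rfl, rfl⟩ | ⟨rfl, rfl⟩ | ⟨rfl, rfl⟩ | ⟨rfl, rfl⟩
  · obtain ⟨K, hK⟩ := p5 B
    exact ⟨K, fun k hk V _ G => hK k hk G⟩
  · obtain ⟨K, hK⟩ := p6 B
    exact ⟨K, fun k hk V _ G => hK k hk G⟩
  · obtain ⟨K, hK⟩ := p7 B
    exact ⟨K, fun k hk V _ G => hK k hk G⟩
  · obtain ⟨K, hK⟩ := p8 B
    exact ⟨K, fun k hk V _ G => hK k hk G⟩
  · obtain ⟨K, hK⟩ := p9 B
    exact ⟨K, fun k hk V _ G => hK k hk G⟩

end Pool.Agent.Results.MP_28724c_co.PseudorandomAndPaleyH28
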