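import Pool.Agent.V7H28.RM.TableA

/-!
MP_28724c_co, unbalanced pairs of sets: if two vertex sets `X`, `Y` with at least `c ^ k` elements span
at least `p |X| |Y|` red pairs, then there is a monochromatic `K_k`, with `c` decreasing from `3.12` for
`p = 0.52` to `2.479` for `p = 0.95`. So in a colouring without monochromatic `K_k` every pair of vertex
sets with at least `3.022 ^ k` elements has red density between `0.4` and `0.6`.
-/

namespace Pool.Agent.Results.MP_28724c_co.UnbalancedPairsH28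

open Pool.Agent.V7H28.RM

/-- The number of pairs `(x, y) ∈ X × Y` such that `x` and `y` are adjacent. -/
noncomputable def edges {V : Type} (G : SimpleGraph V) (X Y : Finset V) : ℕ := by
  classical exact ((X ×ˢ Y).filter (fun e => G.Adj e.1 e.2)).card

/-- The pairs `(p, c)` of the theorem. -/
def table : List (ℝ × ℝ) :=
  [(0.52, 3.12), (0.54, 3.108), (0.56, 3.082), (0.58, 3.053), (0.6, 3.022), (0.62, 2.988),
    (0.65, 2.934), (0.7, 2.834), (0.75, 2.748), (0.8, 2.665), (0.85, 2.594), (0.9, 2.532),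
    (0.95, 2.479)]

/-- **Unbalanced pairs of sets.** For the pairs `(p, c)` of the table and all large `k`: if `X` and `Y`
are finite sets of vertices of a graph, both with at least `c ^ k` elements, and at least `p |X| |Y|`
of the pairs in `X × Y` are adjacent, then there is a clique or an independent set of size `k`. -/
theorem result : ∀ p c : ℝ, (p, c) ∈ table → ∃ K : ℕ, ∀ k : ℕ, K ≤ k →
    ∀ (V : Type) (G : SimpleGraph V) (X Y : Finset V),
      c ^ k ≤ (X.card : ℝ) → c ^ k ≤ (Y.card : ℝ) →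
      p * X.card * Y.card ≤ (edges G X Y : ℝ) →
      (∃ s : Finset V, G.IsNClique k s) ∨ (∃ s : Finset V, Gᶜ.IsNClique k s) := by
  intro p c hmem
  unfold table at hmem
  simp only [List.mem_cons, Prod.mk.injEq, List.not_mem_nil, or_false] at hmem
  rcases hmem with ⟨rfl, rfl⟩ | ⟨rfl, rfl⟩ | ⟨rfl, rfl⟩ | ⟨rfl, rfl⟩ | ⟨rfl, rfl⟩ | ⟨rfl, rfl⟩ |
    ⟨rfl, rfl⟩ | ⟨rfl, rfl⟩ | ⟨rfl, rfl⟩ | ⟨rfl, rfl⟩ | ⟨rfl, rfl⟩ | ⟨rfl, rfl⟩ | ⟨rfl, rfl⟩
  exacts [rowA520, rowA540, rowA560, rowA580, rowA600, rowA620, rowA650, rowA700, rowA750, rowA800,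
    rowA850, rowA900, rowA950]

end Pool.Agent.Results.MP_28724c_co.UnbalancedPairsH28
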